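import Pool.Agent.Q41.ZP.Total

/-!
# MP_0704bf_ag: no atypical Hodge loci for all but `O(H^(q - 1 + ε))` integral members of
multi-parameter families of variations of Hodge structure, uniformly in arbitrary units

**Families.** Let `Λ ⊂ ℂ` be a finitely generated ring (a ring with an injection `ι : Λ → ℂ`), and
`K` a countable field with `Λ ⊆ K ⊂ ℂ`. The parameters are `t = (t_1, …, t_q)` and
`w = (w_1, …, w_n)`. We are given
* a family `B_t ⊆ P^N` of projective algebraic sets, defined by forms `G k` over `Λ[t_1, …, t_q]`,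
* quotients `A_i / B_i` of forms of the same degree over `Λ[t_1, …, t_q]`, `i = 1, …, n`,
* functions `g_i` on the upper half plane with `R_i (g_i, j) = 0`, `R_i ∈ Λ[J][S]` monic in `S`, for
  instance `j` itself or modular functions of any level without poles in the upper half plane, and
  `c_i ∈ Λ[t_1, …, t_q]`.
Let `S_{t,w}` be the set (`total`) of all points `(y, z)` of `B_t × ℍ^n` with
`w_i c_i (t) g_i (z_i) = A_i (y) / B_i (y)` for all `i`. Its components are coverings of (open parts of)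
the algebraic sets of all points `(y, x)` of `B_t × X_1 × … × X_n`, `X_i` the modular curve of `g_i`,
with `w_i c_i (t) g_i (x_i) = A_i (y) / B_i (y)`, on which there is the polarizable variation of Hodge
structure `𝕍` given by the `n` families of elliptic curves. The period map composed with the finite map
to `Y(1)^n` is `Φ (y, z) = (j (z_1), …, j (z_n))`, and the Hodge subvarieties are the special
subvarieties of `Y(1)^n = ℂ^n`. (This translation is not a part of the Lean text.)

**Multipliers.** Let `h ∈ Λ[t_1, …, t_q]`, and let `R_t` be the ring `Λ[1 / h(t)] ⊂ ℂ`. The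
multipliers `w_i` are arbitrary units of the integral closure of `R_t` in `ℂ`, independent of each
other, of unbounded degrees (`Multipliers`).

**Degenerations.** Let `f_l ∈ ℤ[t_1, …, t_q]`, `l = 1, …, M`, be irreducible over `ℤ` and over `K`,
none dividing another, such that
* `c_i = u_i ∏_l f_l ^ (e_{l i})` with positive independent exponents (`Independent`) and `u_i` and `h`
  not divisible by any `f_l` (over `K`),
* for one complex point `β_l` of each hypersurface `f_l = 0` no point of `B_{β_l}` lies on `m + 1` of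
  the divisors of the `A_i / B_i` (at `t = β_l`) and the coordinate hyperplanes `y_a = 0`.

**Theorem.** If `M ≥ n (n - 1) / 2 + 1` then for every `ε > 0` there is a constant `C` such that for
all but `C H^(q - 1 + ε)` of the integral points `t` with `max |t_j| ≤ H`, and for ALL vectors `w` of
units of the integral closure of `Λ[1 / h(t)]`: for every `ρ` every irreducible closed subset `W` of
the intersection of `Φ (S_{t,w})` with the union of all special subvarieties `Z` of codimension at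
least `ρ` has dimension at most `m - ρ`, and the same bound holds for the irreducible closed subsets
`W` of `Φ⁻¹ (Z)` (`NoAtypical`). For `ρ = 0` it follows that `S_{t,w}` has dimension at most `m`. It
follows that `codim Φ (W) ≥ codim Φ (S) + codim Z` for all special subvarieties `W` for `𝕍` of all
components `S` of `S_{t,w}` of dimension `m` (`W` a component of `Φ⁻¹ (Z)`). So there is no atypical
special subvariety, except possibly those contained in the singular locus of `S` for `𝕍`. The constant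
coordinates of `Z` can be special points or any numbers integral over `Λ[1 / h(t)]`.

The exceptional set of the `t` is the same for all `w`. The exponent `q - 1` is the best possible.
-/

set_option autoImplicit false

namespace Pool.Agent.Results.MP_0704bf_ag.MultiparameterVariations

open MvPolynomial UpperHalfPlane Pool.Agent.W282.ZP H294ZP
open Pool.Agent.Results.MP_d83ecd_ag.LocalCriterion (OnB valueAt SpecialVariety)

/-- the value at a complex point of a polynomial over the ring `Λ`, which is mapped to `ℂ` by `ι` -/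
noncomputable def evalC {Λ : Type} [CommRing Λ] (ι : Λ →+* ℂ) {q : ℕ} (β : Fin q → ℂ) :
    MvPolynomial (Fin q) Λ →+* ℂ :=
  MvPolynomial.eval₂Hom ι β

/-- the value at an integral point of a polynomial over `Λ` -/
noncomputable def evalZ {Λ : Type} [CommRing Λ] {q : ℕ} (t : Fin q → ℤ) :
    MvPolynomial (Fin q) Λ →+* Λ :=
  MvPolynomial.eval (fun j => (t j : Λ))

/-- The set `S_{t,w}`: the points `(y, z)` of `B_t × ℍ^n` with
`w_i c_i (t) B_i (y) g_i (z_i) = A_i (y)`. -/
def total {Λ : Type} [CommRing Λ] (ι : Λ →+* ℂ) {q N n : ℕ} {κ : Type}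
    (G : κ → MvPolynomial (Fin (N + 1)) (MvPolynomial (Fin q) Λ))
    (A B : Fin n → MvPolynomial (Fin (N + 1)) (MvPolynomial (Fin q) Λ))
    (g : Fin n → ℍ → ℂ) (c : Fin n → MvPolynomial (Fin q) Λ) (t : Fin q → ℤ) (w : Fin n → ℂ) :
    Set ((Fin (N + 1) → ℂ) × (Fin n → ℍ)) :=
  {p | OnB ι (fun k => map (evalZ t) (G k)) p.1 ∧ ∀ i,
    w i * ι (evalZ t (c i)) * eval₂ ι p.1 (map (evalZ t) (B i)) * g i (p.2 i) =
      eval₂ ι p.1 (map (evalZ t) (A i))}

/-- The ring `Λ[1 / h(t)]`. -/
def ringOf {Λ : Type} [CommRing Λ] (ι : Λ →+* ℂ) {q : ℕ} (h : MvPolynomial (Fin q) Λ)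
    (t : Fin q → ℤ) : Subring ℂ :=
  Subring.closure (insert (ι (evalZ t h))⁻¹ (Set.range ι))

/-- All the multipliers are units of the integral closure of `S` in `ℂ`. -/
def Multipliers (S : Subring ℂ) {n : ℕ} (w : Fin n → ℂ) : Prop :=
  ∀ i, w i ≠ 0 ∧ IsIntegral S (w i) ∧ IsIntegral S (w i)⁻¹

/-- The exponents at the hypersurfaces are positive and independent. -/
def Independent {n M : ℕ} (T : ℕ) (e : Fin M → Fin n → ℕ) : Prop :=
  (∀ l i, 0 < e l i) ∧ ∀ l l', l ≠ l' → ∀ i j, i ≠ j → ∀ q, 0 < q → q ≤ T ^ 8 →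
    ¬ IsSquare (q * (e l i * e l j * (e l' i * e l' j)))

/-- `f` divides `P` over the field `K`. -/
def DividesOver {Λ : Type} [CommRing Λ] (ι : Λ →+* ℂ) (K : Subfield ℂ) (hK : ∀ a, ι a ∈ K) {q : ℕ}
    (f : MvPolynomial (Fin q) ℤ) (P : MvPolynomial (Fin q) Λ) : Prop :=
  MvPolynomial.map (Int.castRingHom K) f ∣ MvPolynomial.map (ι.codRestrict K hK) P

/-- No point of `B_β` lies on `m + 1` of the divisors of the `A i / B i` and of the coordinate
hyperplanes. -/
def InGeneralPosition {Λ : Type} [CommRing Λ] (ι : Λ →+* ℂ) {q N n : ℕ} {κ : Type} (m : ℕ)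
    (G : κ → MvPolynomial (Fin (N + 1)) (MvPolynomial (Fin q) Λ))
    (A B : Fin n → MvPolynomial (Fin (N + 1)) (MvPolynomial (Fin q) Λ)) (β : Fin q → ℂ) : Prop :=
  ∀ I : Finset (Fin n ⊕ Fin (N + 1)), I.card = m + 1 → ∀ y : Fin (N + 1) → ℂ,
    OnB (evalC ι β) G y →
    ∃ i ∈ I, Sum.elim (fun i => eval₂ (evalC ι β) y (A i) * eval₂ (evalC ι β) y (B i)) y i ≠ 0

/-- The point `x` of `Y(1)^n` is in a special subvariety of codimension at least `ρ`, whose constant
coordinates are special or integral over `S`. -/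
def InSpecial (S : Subring ℂ) {n : ℕ} (x : Fin n → ℂ) (ρ : ℕ) : Prop :=
  ∃ (r : ℕ) (Z : SpecialVariety S.subtype n r), ρ + r ≤ n ∧ x ∈ Z.locus

/-- For all `ρ` every irreducible closed subset `W` of the intersection of the image of `X` in
`Y(1)^n` with the union of the special subvarieties of codimension at least `ρ` satisfies
`dim W + ρ ≤ m`, and the same holds for the irreducible closed subsets of the set of all points
`(y, x)` of `B × Y(1)^n` with `x = (jj z_1, …, jj z_n)`, `(y, z) ∈ X`, such that `x` is in this union.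

Here `W` is more precisely an irreducible closed set of vectors, such that all vectors in `W`
outside of some hypersurface `p = 0`, which does not contain `W`, are the vectors of coordinates
(numbered in any way) of such points `x`, respectively `(y, x)` over the affine part `y_{j₀} = 1` of
`P^N`. -/
def NoAtypical (S : Subring ℂ) {N n : ℕ} (X : Set ((Fin (N + 1) → ℂ) × (Fin n → ℍ))) (m : ℕ) :
    Prop :=
  ∀ ρ : ℕ,
    (∀ (s : ℕ) (σ : Fin s ≃ Fin n) (W : Set (Fin s → ℂ)) (p : MvPolynomial (Fin s) ℂ),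
      (∀ w ∈ W, eval w p ≠ 0 → ∃ z ∈ X, InSpecial S (fun i => jj (z.2 i)) ρ ∧
        ∀ i, w i = jj (z.2 (σ i))) →
      zcl W ⊆ W → (idealOf W).IsPrime → p ∉ idealOf W →
      zdim W + (ρ : Cardinal) ≤ (m : Cardinal)) ∧
    ∀ (j₀ : Fin (N + 1)) (s : ℕ) (σ : Fin s ≃ Fin (N + 1) ⊕ Fin n) (W : Set (Fin s → ℂ))
      (p : MvPolynomial (Fin s) ℂ),
      (∀ w ∈ W, eval w p ≠ 0 →
        ∃ z ∈ X, z.1 j₀ = 1 ∧ InSpecial S (fun i => jj (z.2 i)) ρ ∧
          ∀ i, w i = (Sum.elim z.1 (fun i => jj (z.2 i)) : Fin (N + 1) ⊕ Fin n → ℂ) (σ i)) →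
      zcl W ⊆ W → (idealOf W).IsPrime → p ∉ idealOf W →
      zdim W + (ρ : Cardinal) ≤ (m : Cardinal)

/-- The map `(y, z) ↦ (a y, z)`. -/
theorem scale_mem {Λ : Type} [CommRing Λ] {ι : Λ →+* ℂ} {q N n : ℕ} {κ : Type}
    {G : κ → MvPolynomial (Fin (N + 1)) (MvPolynomial (Fin q) Λ)}
    (hG : ∀ k, ∃ e, (G k).IsHomogeneous e)
    {A B : Fin n → MvPolynomial (Fin (N + 1)) (MvPolynomial (Fin q) Λ)} {d : Fin n → ℕ}
    (hA : ∀ i, (A i).IsHomogeneous (d i)) (hB : ∀ i, (B i).IsHomogeneous (d i))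
    {g : Fin n → ℍ → ℂ} {c : Fin n → MvPolynomial (Fin q) Λ} {t : Fin q → ℤ} {w : Fin n → ℂ}
    {y : Fin (N + 1) → ℂ} {z : Fin n → ℍ} (h : (y, z) ∈ total ι G A B g c t w) {a : ℂ}
    (ha : a ≠ 0) : (a • y, z) ∈ total ι G A B g c t w := by
  have hsm : ∀ (P : MvPolynomial (Fin (N + 1)) (MvPolynomial (Fin q) Λ)) (f : ℕ),
      P.IsHomogeneous f →
      eval₂ ι (a • y) (map (evalZ t) P) = a ^ f * eval₂ ι y (map (evalZ t) P) := by
    intro P f hP
    have h1 := Pool.Agent.W466.ZC.eval_smul ((hP.map (evalZ t)).map ι) a y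
    rwa [eval_map, eval_map] at h1
  obtain ⟨⟨h1, h2⟩, h4⟩ := h
  refine ⟨⟨smul_ne_zero ha h1, fun l => ?_⟩, fun i => ?_⟩
  · obtain ⟨e, he⟩ := hG l
    change eval₂ ι (a • y) (map (evalZ t) (G l)) = 0
    rw [hsm _ _ he, h2 l, mul_zero]
  · change _ * eval₂ ι (a • y) (map (evalZ t) (B i)) * _ = eval₂ ι (a • y) (map (evalZ t) (A i))
    rw [hsm _ _ (hA _), hsm _ _ (hB _), ← h4 i]
    ring

/-- No atypical Hodge loci (outside of the singular locus) for all but few integral members of
multi-parameter families of variations of Hodge structure, uniformly in scalings by units of the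
integral closure of `Λ[1 / h(t)]`. -/
theorem result {Λ : Type} [CommRing Λ] [Algebra.FiniteType ℤ Λ] (ι : Λ →+* ℂ)
    (hι : Function.Injective ι) (K : Subfield ℂ) [Countable K] (hK : ∀ a, ι a ∈ K)
    (κ : Type) (q N n m M T : ℕ)
    (G : κ → MvPolynomial (Fin (N + 1)) (MvPolynomial (Fin q) Λ))
    (hG : ∀ k, ∃ e, (G k).IsHomogeneous e)
    (A B : Fin n → MvPolynomial (Fin (N + 1)) (MvPolynomial (Fin q) Λ)) (d : Fin n → ℕ)
    (hA : ∀ i, (A i).IsHomogeneous (d i)) (hB : ∀ i, (B i).IsHomogeneous (d i))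
    (R : Fin n → Polynomial (Polynomial Λ)) (hR : ∀ i, (R i).Monic)
    (hT : ∀ i u v, ((R i).coeff u).coeff v ≠ 0 → u ≤ T ∧ v ≤ T)
    (g : Fin n → ℍ → ℂ) (hg : ∀ i z, valueAt ι (R i) (g i z) (jj z) = 0)
    (f : Fin M → MvPolynomial (Fin q) ℤ) (hf : ∀ l, Irreducible (f l))
    (hfK : ∀ l, Irreducible (MvPolynomial.map (Int.castRingHom K) (f l)))
    (hf2 : ∀ l l', l ≠ l' → ¬ f l ∣ f l')
    (e : Fin M → Fin n → ℕ) (he : Independent T e)
    (u : Fin n → MvPolynomial (Fin q) Λ) (hu : ∀ l i, ¬ DividesOver ι K hK (f l) (u i))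
    (c : Fin n → MvPolynomial (Fin q) Λ)
    (hc : ∀ i, c i = u i * ∏ l, MvPolynomial.map (algebraMap ℤ Λ) (f l) ^ e l i)
    (β : Fin M → Fin q → ℂ) (hβ : ∀ l, MvPolynomial.aeval (β l) (f l) = 0)
    (hpos : ∀ l, InGeneralPosition ι m G A B (β l))
    (h : MvPolynomial (Fin q) Λ) (hh : ∀ l, ¬ DividesOver ι K hK (f l) h)
    (hM : n.choose 2 + 1 ≤ M) (ε : ℝ) (hε : 0 < ε) :
    ∃ C : ℝ, ∀ H : ℕ, 1 ≤ H →
      (Set.ncard {t : Fin q → ℤ | (∀ j, |t j| ≤ (H : ℤ)) ∧
        ∃ w : Fin n → ℂ, Multipliers (ringOf ι h t) w ∧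
          ¬ NoAtypical (ringOf ι h t) (total ι G A B g c t w) m} : ℝ) ≤
        C * (H : ℝ) ^ ((q : ℝ) - 1 + ε) := by
  classical
  have hdom : IsDomain Λ := hι.isDomain ι
  let E : Option (Fin n ⊕ (Fin n × Fin (T + 1) × Fin (T + 1))) → MvPolynomial (Fin q) Λ :=
    fun x => x.elim h (Sum.elim u fun q =>
      if ((R q.1).coeff q.2.1).coeff q.2.2 = 0 then 1
      else MvPolynomial.C (((R q.1).coeff q.2.1).coeff q.2.2))
  have hιK : Function.Injective (ι.codRestrict K hK) := fun a b hab =>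
    hι (congrArg (fun z : K => (z : ℂ)) hab)
  let A' : Fin n ⊕ Fin (N + 1) → MvPolynomial (Fin (N + 1)) (MvPolynomial (Fin q) Λ) :=
    Sum.elim A X
  let B' : Fin n ⊕ Fin (N + 1) → MvPolynomial (Fin (N + 1)) (MvPolynomial (Fin q) Λ) :=
    Sum.elim B X
  obtain ⟨C, hC⟩ := Pool.Agent.Q41.ZP.exists_places (m := m) (ι.codRestrict K hK) K.subtype G hG
    A' B' (Sum.elim d fun _ => 1)
    (fun i => by
      rcases i with i | a
      · exact hA i
      · exact isHomogeneous_X _ _)
    (fun i => by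
      rcases i with i | a
      · exact hB i
      · exact isHomogeneous_X _ _) f hf hfK hf2 E
    (fun l x => by
      rcases x with _ | i | x
      · exact hh l
      · exact hu l i
      · simp only [E, Option.elim_some, Sum.elim_inr]
        split_ifs with h0
        · intro h1
          rw [map_one] at h1
          exact (hfK l).not_isUnit (isUnit_of_dvd_one h1)
        · intro h1
          rw [MvPolynomial.map_C] at h1
          refine (hfK l).not_isUnit (isUnit_of_dvd_unit h1 ?_)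
          refine (isUnit_iff_ne_zero.2 ?_).map MvPolynomial.C
          rw [← map_zero (ι.codRestrict K hK)]
          exact hιK.ne h0) β hβ
    (fun l I hI y hy0 hy => by
      obtain ⟨i, hi, h1⟩ := hpos l I hI y ⟨hy0, hy⟩
      refine ⟨i, hi, ?_⟩
      rcases i with i | a
      · exact h1
      · simp only [A', B', Sum.elim_inr, eval₂_X]
        exact mul_ne_zero h1 h1) hε
  have hfin : ∀ H : ℕ, {t : Fin q → ℤ | ∀ j, |t j| ≤ (H : ℤ)}.Finite := fun H =>
    (Fintype.piFinset fun _ : Fin q => Finset.Icc (-(H : ℤ)) H).finite_toSet.subset fun t ht =>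
      Fintype.mem_piFinset.2 fun j => Finset.mem_Icc.2 (abs_le.1 (ht j))
  have hev : ∀ (t : Fin q → ℤ), (evalZ t : MvPolynomial (Fin q) Λ →+* Λ) =
    Pool.Agent.Q41.ZP.evZ t := fun _ => rfl
  -- the order of the coefficients at the places
  have horder : ∀ (t : Fin q → ℤ) (l : Fin M) (𝔭 : Ideal Λ), 𝔭.IsPrime →
      (∀ l', l' ≠ l → ((MvPolynomial.eval t (f l') : ℤ) : Λ) ∉ 𝔭) →
      (∀ i, evalZ t (u i) ∉ 𝔭) → ∀ i, ∃ a b : Λ, a ∉ 𝔭 ∧ b ∉ 𝔭 ∧
        a * evalZ t (c i) = b * ((MvPolynomial.eval t (f l) : ℤ) : Λ) ^ e l i := by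
    intro t l 𝔭 h𝔭 h1 h2 i
    refine ⟨1, evalZ t (u i) * ∏ l' ∈ Finset.univ.erase l,
      ((MvPolynomial.eval t (f l') : ℤ) : Λ) ^ e l' i, ?_, ?_, ?_⟩
    · exact fun h => h𝔭.ne_top ((Ideal.eq_top_iff_one _).2 h)
    · intro h
      rcases h𝔭.mem_or_mem h with h3 | h3
      · exact h2 i h3
      · obtain ⟨l', hl', h4⟩ := (h𝔭.prod_mem_iff).1 h3
        exact h1 l' (Finset.ne_of_mem_erase hl') (h𝔭.mem_of_pow_mem _ h4)
    · rw [one_mul, hc i, map_mul, map_prod, mul_assoc]
      congr 1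
      simp only [map_pow, hev, Pool.Agent.Q41.ZP.evZ_map]
      exact (Finset.prod_erase_mul Finset.univ
        (fun l' => ((MvPolynomial.eval t (f l') : ℤ) : Λ) ^ e l' i) (Finset.mem_univ l)).symm
  refine ⟨C, fun H hH => le_trans ?_ (hC H hH)⟩
  rw [Nat.cast_le]
  refine Set.ncard_le_ncard ?_ ((hfin H).subset fun t ht => ht.1)
  rintro t ⟨ht1, w, hw, ht3⟩
  refine ⟨ht1, ?_⟩
  rintro ⟨hf0, hpl⟩
  apply ht3
  choose 𝔭 h𝔭 hf𝔭 hf𝔭' hE𝔭 hpos𝔭 using hpl
  let σ : Fin (n.choose 2 + 1) → Fin M := Fin.castLE hM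
  have hσ : Function.Injective σ := Fin.castLE_injective hM
  -- the bound for transcendence degrees
  have hkey : ∀ (y : Fin (N + 1) → ℂ) (z : Fin n → ℍ) (j0 : Fin (N + 1)) (ρ : ℕ), y j0 = 1 →
      (y, z) ∈ total ι G A B g c t w → InSpecial (ringOf ι h t) (fun i => jj (z i)) ρ →
      ∀ (S : Finset (Fin n)) (T1 : Finset (Fin (N + 1))),
      AlgebraicIndependent K (Sum.elim (fun i : S => jj (z i)) (fun a : T1 => y a)) →
      S.card + T1.card + ρ ≤ m := by
    rintro y z j0 ρ hj0 ⟨hy, h1⟩ ⟨r, Z, hρ, hxZ⟩ S T1 hST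
    have h3 := Pool.Agent.Q41.ZP.crit_total (m := m) ι hι K hK (fun k => map (evalZ t) (G k))
      (fun k => by
        obtain ⟨v, hv⟩ := hG k
        exact ⟨v, hv.map _⟩) (fun i => map (evalZ t) (A i)) (fun i => map (evalZ t) (B i)) d
      (fun i => (hA i).map _) (fun i => (hB i).map _) R hR hT (fun i => evalZ t (c i)) (evalZ t h)
      (fun l i => e (σ l) i) (fun l i => he.1 _ i)
      (fun l l' hll => he.2 _ _ fun h => hll (hσ h)) (fun l => 𝔭 (σ l)) (fun l => h𝔭 _)
      (fun l => hE𝔭 _ none) (by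
        intro l F _ φ hφ I hI y' hy0 hy'
        obtain ⟨i, hi, h4⟩ := hpos𝔭 (σ l) F φ hφ I hI y' hy0 (fun k => by
          have h5 := hy' k
          rw [MvPolynomial.eval₂_map] at h5
          exact h5)
        refine ⟨i, hi, ?_⟩
        rcases i with i | a
        · simp only [Sum.elim_inl]
          rw [MvPolynomial.eval₂_map, MvPolynomial.eval₂_map]
          exact h4
        · simp only [A', B', Sum.elim_inr, eval₂_X] at h4
          exact left_ne_zero_of_mul h4)
      (by
        intro l i a b h0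
        obtain ⟨hu', hv'⟩ := hT i a b h0
        have h2 := hE𝔭 (σ l) (some (Sum.inr (i, ⟨a, Nat.lt_succ_of_le hu'⟩,
          ⟨b, Nat.lt_succ_of_le hv'⟩)))
        simp only [E, Option.elim_some, Sum.elim_inr] at h2
        rw [if_neg h0] at h2
        intro h4
        apply h2
        rw [← hev t]
        change MvPolynomial.eval _ (MvPolynomial.C _) ∈ _
        rw [MvPolynomial.eval_C]
        exact h4)
      (fun l => ((MvPolynomial.eval t (f (σ l)) : ℤ) : Λ)) (fun l => hf𝔭 _)
      (fun l h0 => hf0 (σ l) (by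
        have h4 := congrArg ι h0
        rw [map_intCast, map_zero] at h4
        exact_mod_cast h4))
      (fun l => horder t _ _ (h𝔭 _) (hf𝔭' _) fun i => hE𝔭 _ (some (Sum.inl i))) w hw Z y j0 hj0
      hy.2 (fun i => jj (z i)) (fun i => g i (z i)) (fun i => hg i _) h1 hxZ S T1 hST
    omega
  intro ρ
  constructor
  · intro s σ W' p hW' hcl hprime hp
    refine Pool.Agent.Q41.ZP.dim_of_trdeg K
      (Q := (Fin (N + 1) → ℂ) × (Fin n → ℍ)) (m := m) (ρ := ρ)
      (fun q i => jj (q.2 i))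
      (fun q => q ∈ total ι G A B g c t w ∧ InSpecial (ringOf ι h t) (fun i => jj (q.2 i)) ρ)
      ?_ σ W' p ?_ hcl hprime hp
    · rintro ⟨y, z⟩ ⟨hyX, hS⟩ S hSi
      obtain ⟨j0, hj0⟩ : ∃ j0, y j0 ≠ 0 := by
        by_contra hcon
        push Not at hcon
        exact hyX.1.1 (funext hcon)
      have h2 : AlgebraicIndependent K (Sum.elim (fun i : S => jj (z i))
          (fun a : (∅ : Finset (Fin (N + 1))) => ((y j0)⁻¹ • y) a)) :=
        Pool.Agent.Q41.ZP.empty_ind (K := K) ((y j0)⁻¹ • y) (fun i => jj (z i)) S hSi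
      have h3 := hkey ((y j0)⁻¹ • y) z j0 ρ (by
        rw [Pi.smul_apply, smul_eq_mul, inv_mul_cancel₀ hj0]) (scale_mem hG hA hB hyX
        (inv_ne_zero hj0)) hS S ∅ h2
      rw [Finset.card_empty, add_zero] at h3
      exact h3
    · intro v hv hpv
      obtain ⟨q, hq1, hq2, hq3⟩ := hW' v hv hpv
      exact ⟨q, ⟨hq1, hq2⟩, hq3⟩
  · intro j₀ s σ W' p hW' hcl hprime hp
    refine Pool.Agent.Q41.ZP.dim_of_trdeg K
      (Q := (Fin (N + 1) → ℂ) × (Fin n → ℍ)) (m := m) (ρ := ρ)
      (fun q => Sum.elim q.1 (fun i => jj (q.2 i)))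
      (fun q => q ∈ total ι G A B g c t w ∧ q.1 j₀ = 1 ∧
        InSpecial (ringOf ι h t) (fun i => jj (q.2 i)) ρ)
      ?_ σ W' p ?_ hcl hprime hp
    · rintro ⟨y, z⟩ ⟨hyX, hj, hS⟩ S hSi
      have h2 : AlgebraicIndependent K (Sum.elim (fun i : S.toRight => jj (z i))
          (fun a : S.toLeft => y a)) :=
        Pool.Agent.Q41.ZP.split_ind (K := K) y (fun i => jj (z i)) S hSi
      have h3 := hkey y z j₀ ρ hj hyX hS S.toRight S.toLeft h2
      have h4 := S.card_toLeft_add_card_toRight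
      omega
    · intro v hv hpv
      obtain ⟨q, hq1, hq2, hq3, hq4⟩ := hW' v hv hpv
      exact ⟨q, ⟨hq1, hq2, hq3⟩, hq4⟩

end Pool.Agent.Results.MP_0704bf_ag.MultiparameterVariations
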