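import Pool.Agent.Q41.ZP.Mon
import Pool.Agent.Results.MP_d83ecd_ag.AnyLevelScaledImages

/-!
# MP_0704bf_ag: no atypical Hodge loci for 100 percent of the scalings of the variations of Hodge
structure given by `n` families of elliptic curves over a projective variety of any dimension

Let `B ⊆ P^N` be a complex projective algebraic set, defined by forms `G k`, and let `f_i = A_i / B_i`,
`i = 1, …, n`, be quotients of forms of the same degree, all with coefficients in a countable field
`K ⊂ ℂ`, such that no point of `B` lies on `m + 1` of the divisors `A_i B_i = 0` (`hpos`; for `B` of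
dimension `m` this is the case in general). Let `c` be a vector of positive integers.

The functions `f_i / c_i` are the parameters of `n` families of elliptic curves, for example the
`λ`-parameters of the Legendre families

  `E_i : y² = x (x - 1) (x - f_i / c_i)`

over the open subset `S_c` of `B` on which `f_i / c_i ≠ 0, 1, ∞` for all `i`, or the `j`-invariants, or
functions on modular curves of any level. They give the polarizable variation of Hodge structure
`V_c = ⊕ R¹π_{i*} ℤ` on (the smooth part of) `S_c`. Its period map composed with the finite map to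
`Y(1)^n = ℂ^n` is the map `Φ` given by the `j`-invariants `j (E_i)`. We use the notation of the starting
file `AnyLevelScaledImages` of `MP_d83ecd_ag`: the parameters are functions `s_i` on a modular curve with
`R_i (s_i, j) = 0`, where `R_i` is a polynomial over `K`, monic in the first variable
(`R = (1 - S + S²)³ - 2⁻⁸ J S² (1 - S)²` for the `λ`-parameter, `R = S - J` for the `j`-invariant);
`scaledImage G A B R c` is the set `X_c ⊆ Y(1)^n` of all `x` such that for some `y ∈ B` and some numbers
`s_i` we have `R_i (s_i, x_i) = 0` and `c_i B_i (y) s_i = A_i (y)`. It contains `Φ (S_c)`, and also its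
closure.

The Hodge subvarieties `Γ' \ D'` of dimension `r` are the special subvarieties `Z` of dimension `r` of
`Y(1)^n`. `NoAtypical`: every irreducible closed `A ⊆ X_c ∩ Z` satisfies `dim A + n ≤ r + m`, and every
point of `X_c ∩ Z` has transcendence degree at most `r + m - n` over `K`. This says (if `Φ` is finite
in general, so that `dim Φ (S_c) = m`) that `codim Φ (W) ≥ codim Φ (S_c) + codim Γ' \ D'` for all
special subvarieties `W` of `S_c` for `V_c` (`W` a component of `Φ⁻¹ (Γ' \ D')`); so there is no atypical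
special subvariety, except possibly those contained in the singular locus `S^sing`, a proper closed
subset in which every special subvariety is atypical by definition. In particular the atypical Hodge
locus is not Zariski dense. (The constant coordinates of `Z` may also be isogenous to an element of a
given finite set `Γ ⊂ K`, or integral over `ℤ[Γ]`.)

**Theorem.** Let `L = n ^ 2 * (T + 1) ^ 4 + 1`, where `T` bounds the degrees of the `R_i`, let `a_l i > 0`
be exponents such that `a_l i a_l j a_l' i a_l' j` is not a square for `l ≠ l'`, `i ≠ j`, and let `b_i` be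
arbitrary positive integers. Then `X_c` has no atypical intersections for
`c_i = b_i ∏_{l ≤ L} u_l ^ (a_l i)` for 100 percent of all `u ∈ {1, …, H}^L`: for every `y` which is at
least `1`, `D` and all `b_i` the number of exceptions is at most
`L H^(L-1) (log₂ H + 1)^(y+1) + L² H^L / y`, and so it is `o(H^L)`. The number `D` does not depend on the
exponents and on `b`. The same is true for `c_i = b_i ∏_{l ≤ L} p_l ^ (a_l i)` for all different primes
`p_l > D` which do not divide the `b_j`, without exceptions.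
-/

set_option autoImplicit false

namespace Pool.Agent.Results.MP_0704bf_ag.ScaledVariations

open MvPolynomial Pool.Agent.W282.ZP
open Pool.Agent.Results.MP_d83ecd_ag.AnyLevelScaledImages (OnB valueAt scaledImage NoAtypical)

/-- No atypical Hodge loci (outside of the singular locus) for 100 percent of the scalings, by the
integral points of a torus, of the parameters of `n` families of elliptic curves over a projective
algebraic set. -/
theorem result {κ : Type*} (K : Subfield ℂ) [Countable K] (N n m : ℕ)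
    (G : κ → MvPolynomial (Fin (N + 1)) K) (hG : ∀ k, ∃ e, (G k).IsHomogeneous e)
    (A B : Fin n → MvPolynomial (Fin (N + 1)) K) (d : Fin n → ℕ)
    (hA : ∀ i, (A i).IsHomogeneous (d i)) (hB : ∀ i, (B i).IsHomogeneous (d i))
    (hpos : ∀ I : Finset (Fin n), I.card = m + 1 → ∀ y, OnB G y →
      ∃ i ∈ I, aeval y (A i) * aeval y (B i) ≠ 0)
    (R : Fin n → Polynomial (Polynomial K)) (hR : ∀ i, (R i).Monic)
    (T : ℕ) (hT : ∀ i u w, ((R i).coeff u).coeff w ≠ 0 → u ≤ T ∧ w ≤ T)
    (Γ : Finset ℂ) (hΓ : ∀ γ ∈ Γ, γ ∈ K) (L : ℕ) (hL : L = n * n * (T + 1) ^ 4 + 1) :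
    ∃ D : ℕ, ∀ a : Fin L → Fin n → ℕ, (∀ l i, 0 < a l i) →
      (∀ l l', l ≠ l' → ∀ i j, i ≠ j → ¬ IsSquare (a l i * a l j * (a l' i * a l' j))) →
      ∀ b : Fin n → ℕ, (∀ i, b i ≠ 0) →
      (∀ p : Fin L → ℕ, Function.Injective p → (∀ l, (p l).Prime ∧ D < p l) →
        (∀ l i, ¬ p l ∣ b i) →
        NoAtypical K Γ m (scaledImage G A B R (fun i => b i * ∏ l, p l ^ a l i))) ∧
      (∀ y : ℕ, 1 ≤ y → D ≤ y → (∀ i, b i ≤ y) → ∀ H : ℕ,
        (Set.ncard {u : Fin L → ℕ | (∀ l, 1 ≤ u l ∧ u l ≤ H) ∧
          ¬ NoAtypical K Γ m (scaledImage G A B R (fun i => b i * ∏ l, u l ^ a l i))} : ℝ) ≤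
        L * (H : ℝ) ^ (L - 1) * (Nat.log 2 H + 1 : ℕ) ^ (y + 1) +
          (L : ℝ) ^ 2 * (H : ℝ) ^ L / y) ∧
      ∀ ε : ℝ, 0 < ε → ∃ H₀ : ℕ, ∀ H : ℕ, H₀ ≤ H →
        (Set.ncard {u : Fin L → ℕ | (∀ l, 1 ≤ u l ∧ u l ≤ H) ∧
          ¬ NoAtypical K Γ m (scaledImage G A B R (fun i => b i * ∏ l, u l ^ a l i))} : ℝ) ≤
        ε * (H : ℝ) ^ L := by
  classical
  obtain ⟨D, hD, -, -⟩ := Pool.Agent.Results.MP_d83ecd_ag.AnyLevelScaledImages.result K N n m G hG A B
    d hA hB hpos R hR T hT Γ hΓ L hL
  refine ⟨D, fun a ha hsq b hb => ?_⟩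
  have key : ∀ u : Fin L → ℕ, (∀ l, u l ≠ 0) → ∀ p : Fin L → ℕ,
      (∀ l, (p l).Prime ∧ D < p l) → (∀ l, p l ∣ u l) → (∀ l l', l ≠ l' → ¬ p l ∣ u l') →
      (∀ l i, ¬ p l ∣ b i) →
      NoAtypical K Γ m (scaledImage G A B R (fun i => b i * ∏ l, u l ^ a l i)) :=
    fun u hu p hp h1 h2 h3 => hD _ (Pool.Agent.Q41.ZP.spreadL_of_primes (D := D) a ha hsq hu hb p hp
      h1 h2 h3)
  have hfirst : ∀ y : ℕ, 1 ≤ y → D ≤ y → (∀ i, b i ≤ y) → ∀ H : ℕ,
        (Set.ncard {u : Fin L → ℕ | (∀ l, 1 ≤ u l ∧ u l ≤ H) ∧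
          ¬ NoAtypical K Γ m (scaledImage G A B R (fun i => b i * ∏ l, u l ^ a l i))} : ℝ) ≤
        L * (H : ℝ) ^ (L - 1) * (Nat.log 2 H + 1 : ℕ) ^ (y + 1) +
          (L : ℝ) ^ 2 * (H : ℝ) ^ L / y := by
    intro y hy hDy hby H
    refine le_trans ?_ (Pool.Agent.Q41.ZP.count_u L hy H)
    rw [← Set.ncard_coe_finset]
    refine Nat.cast_le.2 (Set.ncard_le_ncard ?_ (Finset.finite_toSet _))
    rintro u ⟨hu1, hu2⟩
    rw [Finset.mem_coe, Finset.mem_filter, Fintype.mem_piFinset]
    refine ⟨fun l => Finset.mem_Icc.2 (hu1 l), ?_⟩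
    rintro ⟨p, hp, hpp⟩
    apply hu2
    refine key u (fun l => by have := (hu1 l).1; omega) p
      (fun l => ⟨(hp l).1, lt_of_le_of_lt hDy (hp l).2.1⟩) (fun l => (hp l).2.2) hpp
      (fun l i h => ?_)
    have h4 := Nat.le_of_dvd (Nat.pos_of_ne_zero (hb i)) h
    have h5 := (hp l).2.1
    have h6 := hby i
    omega
  refine ⟨fun p hinj hp hpb => key p (fun l => (hp l).1.ne_zero) p hp (fun l => dvd_rfl)
    (fun l l' hll h => hll (hinj ((Nat.prime_dvd_prime_iff_eq (hp l).1 (hp l').1).1 h))) hpb,
    hfirst, fun ε hε => ?_⟩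
  obtain ⟨y, hYy, H₀, hH₀⟩ := Pool.Agent.Q41.ZP.small_bound L (D + ∑ i, b i + 1) hε
  refine ⟨H₀, fun H hH => (hfirst y (by omega) (by omega) (fun i => ?_) H).trans (hH₀ H hH)⟩
  have h1 : b i ≤ ∑ i, b i := Finset.single_le_sum (fun i _ => Nat.zero_le _) (Finset.mem_univ i)
  omega

end Pool.Agent.Results.MP_0704bf_ag.ScaledVariations
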