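import Pool.Agent.Q57.ZP.HodC
import Pool.Agent.Q57.ZP.Par

/-!
# MP_0704bf_ag: Zilber-Pink for variations of Hodge structure given by families of elliptic curves
with level structures, for all but finitely many members of one-parameter families of bases and of
maps to modular curves, scaled by arbitrary units

**The variations.** Let `K ⊂ ℂ` be a countable field, and let
* `B_t ⊆ P^N` be a family of projective algebraic sets with one parameter `t`, defined by forms
  `G l` with coefficients in `K[t]`,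
* `f_i = A_i / B_i`, `i = 1, …, n`, quotients of forms of the same degree `δ_i` with coefficients in
  `K[t]`,
* `g_i` functions on the upper half plane which are integral over `K[jj]`, `jj = j = E₄³ / Δ` the
  elliptic modular function: `R_i (g_i (z), jj (z)) = 0` with polynomials `R_i` monic in the first
  variable. For example `g_i = jj`, or a Hauptmodul with its pole at a cusp of a modular curve
  `X_i = Γ_i \ ℍ` of genus `0` of any level (`λ`, …); nothing else is used about `g_i`,
* `c_i ∈ K[t]` nonzero polynomials, and `w_i` nonzero numbers.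

Let `X_{t,w}` (`total`) be the set of all points `(y, z)` of `B_t × ℍ^n` such that
`w_i c_i (t) g_i (z_i) = f_i (y)` for all `i` (with the denominators cleared). If the `g_i` are
Hauptmoduln, then its image `S_{t,w}` in `B_t × X_1 × … × X_n` is an open part of `B_t`, with the maps
`f_i / (w_i c_i (t))` to the modular curves `X_i`. It carries the polarizable variation of Hodge
structures `𝕍 = ⊕ 𝕍_i`, where `𝕍_i` is the pull-back of a variation on `X_i` with period domain `ℍ`
(`R¹π_* ℤ` of a family of elliptic curves with level structure, `R²π_* ℤ` of a family of K3 surfaces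
of Picard number `19`, and so on). The period map `Φ` of `𝕍` is (up to finite maps) the map to
`Y(1)^n = ℂ^n` given by `jj z_1, …, jj z_n`, and the Hodge subvarieties of the period space are the
special subvarieties of `Y(1)^n`. More generally we allow constant coordinates which are integral over
`ℤ[Γ]`, for any finite set `Γ` of numbers algebraic over `K` (`InSpecial`).

**Multipliers.** Let `F` and `P` be finite sets of complex numbers algebraic over `K`, and let `R_t` be
the ring generated by `F`, `t` and the numbers `1 / (t - b)`, `b ∈ P`. The multipliers `w_i` are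
arbitrary units of `R_t`, independent of each other: for instance arbitrary `S`-units, arbitrary
powers of the `t - b`, and arbitrary powers of `v`, if `t = u / v` with coprime `u`, `v`.

**Degenerate members.** Let `D_1, …, D_M` be finite sets of complex numbers algebraic over `K`, disjoint
from `P`, such that for all `α` in `D_l`
* no point of `B_α` lies on `m + 1` of the divisors of the `f_i` (at `t = α`) and the coordinate
  hyperplanes (`InGeneralPosition`), and
* the `c_i` have zeros at `α`, of orders `e_i (α) > 0`, and `q e_i (α) e_j (α) e_i (α') e_j (α')` is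
  not a square for `α` in `D_l` and `α'` in `D_l'`, `l ≠ l'`, `i ≠ j`, `1 ≤ q ≤ T^8`, where `T`
  bounds the degrees of the `R_i` (`T = 1` for `g_i = jj`) (`IndependentOrders`).

**Theorem.** Let `L = n (n - 1) / 2`. For all but finitely many
1. `t` in the field generated by `F`, if the union of any `M - L` or more of the sets `D_l` has at least
   three elements,
2. `t` in the ring generated by `F`, if the union of any `M - L` or more of the sets `D_l` has at least
   two elements,
3. units `t` of the ring generated by `F`, if the union of any `M - L` or more of the sets `D_l`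
   contains a nonzero number,
4. algebraic numbers `t` of degree at most `d`, if `L + 1 + 2 d ≤ M` and there are distinct rational
   numbers `α_l` in the `D_l`,
5. complex numbers `t` of which some power `t^a`, `a > 0`, is rational, if `L + 3 ≤ M` and there are
   nonzero rational numbers `α_l` in the `D_l` with distinct absolute values,
6. roots of unity `t`, if `L + 1 ≤ M` and there are rational numbers `α_l` in the `D_l`, `|α_l| ≠ 0, 1`,

and for ALL `w` in `(R_t^×)^n`: for every `ρ` every irreducible closed subset `W` of the intersection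
of `Φ (S_{t,w})` with the union of all special subvarieties `Z` of codimension at least `ρ` has
dimension at most `m - ρ`, and the same bound holds for the irreducible closed subsets `W` of
`Φ⁻¹ (Z)`. For `ρ = 0` it follows that `S_{t,w}` has dimension at most `m`. It follows that
`codim Φ (W) ≥ codim Φ (S) + codim Z` for all special subvarieties `W` for `𝕍` of all components `S`
of `S_{t,w}` of dimension `m` (`W` a component of `Φ⁻¹ (Z)`): the fibres of `Φ` on `W` have at least
the dimension `f` of the general fibres of `Φ` on `S`, so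
`dim Φ (W) ≤ dim S - ρ - f = dim Φ (S) - ρ`. So there is no atypical special subvariety, except
possibly those contained in the singular locus of `S` for `𝕍`, a proper closed subset, in which
every special subvariety is atypical by definition.

The finite exceptional set of the `t` does not depend on `w`. The starting files for this problem
treat a positive proportion of all forms with integral coefficients (`RandomLevelStructures`,
`RandomWeierstrassFamilies`).
-/

set_option autoImplicit false

namespace Pool.Agent.Results.MP_0704bf_ag.TwistedFamilies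

open MvPolynomial H294ZP UpperHalfPlane Pool.Agent.W282.ZP
open Pool.Agent.Results.MP_a325a5_ag.FinitelyGeneratedFields (SpecialVariety order evalAt OnB
  valueAt)

/-- The total space `X_{t,w}`: the points `(y, z)` of `B_t × ℍ^n` such that
`w_i c_i (t) B_i (y) g_i (z_i) = A_i (y)`. -/
def total {K : Subfield ℂ} (t : ℂ) {N n : ℕ} {κ : Type}
    (G : κ → MvPolynomial (Fin (N + 1)) (Polynomial K))
    (A B : Fin n → MvPolynomial (Fin (N + 1)) (Polynomial K))
    (g : Fin n → ℍ → ℂ) (c : Fin n → Polynomial K)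
    (w : Fin n → ℂ) : Set ((Fin (N + 1) → ℂ) × (Fin n → ℍ)) :=
  {p | OnB t G p.1 ∧ ∀ i, w i * evalAt K t (c i) * eval₂ (evalAt K t) p.1 (B i) * g i (p.2 i) =
        eval₂ (evalAt K t) p.1 (A i)}

/-- The point `x` of `Y(1)^n` is in a special subvariety of codimension at least `ρ`. -/
def InSpecial (Γ : Finset ℂ) {n : ℕ} (x : Fin n → ℂ) (ρ : ℕ) : Prop :=
  ∃ (r : ℕ) (Z : SpecialVariety (algebraMap (Algebra.adjoin ℤ (Γ : Set ℂ)) ℂ) n r),
    ρ + r ≤ n ∧ x ∈ Z.locus

/-- For all `ρ` every irreducible closed subset `W` of the intersection of the image of `X` in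
`Y(1)^n` with the union of the special subvarieties of codimension at least `ρ` satisfies
`dim W + ρ ≤ m`, and the same holds for the irreducible closed subsets of the set of all points
`(y, x)` of `B × Y(1)^n` with `x = (jj z_1, …, jj z_n)`, `(y, z) ∈ X`, such that `x` is in this union.

Here `W` is more precisely an irreducible closed set of vectors, such that all vectors in `W`
outside of some hypersurface `p = 0`, which does not contain `W`, are the vectors of coordinates
(numbered in any way) of such points `x`, respectively `(y, x)` over the affine part `y_{j₀} = 1` of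
`P^N`. -/
def NoAtypical (Γ : Finset ℂ) {N n : ℕ} (X : Set ((Fin (N + 1) → ℂ) × (Fin n → ℍ))) (m : ℕ) :
    Prop :=
  ∀ ρ : ℕ,
    (∀ (s : ℕ) (σ : Fin s ≃ Fin n) (W : Set (Fin s → ℂ)) (p : MvPolynomial (Fin s) ℂ),
      (∀ w ∈ W, eval w p ≠ 0 → ∃ z ∈ X, InSpecial Γ (fun i => jj (z.2 i)) ρ ∧
        ∀ i, w i = jj (z.2 (σ i))) →
      zcl W ⊆ W → (idealOf W).IsPrime → p ∉ idealOf W →
      zdim W + (ρ : Cardinal) ≤ (m : Cardinal)) ∧
    ∀ (j₀ : Fin (N + 1)) (s : ℕ) (σ : Fin s ≃ Fin (N + 1) ⊕ Fin n) (W : Set (Fin s → ℂ))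
      (p : MvPolynomial (Fin s) ℂ),
      (∀ w ∈ W, eval w p ≠ 0 →
        ∃ z ∈ X, z.1 j₀ = 1 ∧ InSpecial Γ (fun i => jj (z.2 i)) ρ ∧
          ∀ i, w i = (Sum.elim z.1 (fun i => jj (z.2 i)) : Fin (N + 1) ⊕ Fin n → ℂ) (σ i)) →
      zcl W ⊆ W → (idealOf W).IsPrime → p ∉ idealOf W →
      zdim W + (ρ : Cardinal) ≤ (m : Cardinal)

/-- No point of `B_t` lies on `m + 1` of the divisors of the `A i / B i` and of the coordinate
hyperplanes. -/
def InGeneralPosition {K : Subfield ℂ} (t : ℂ) {N n : ℕ} {κ : Type} (m : ℕ)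
    (G : κ → MvPolynomial (Fin (N + 1)) (Polynomial K))
    (A B : Fin n → MvPolynomial (Fin (N + 1)) (Polynomial K)) : Prop :=
  ∀ I : Finset (Fin n ⊕ Fin (N + 1)), I.card = m + 1 → ∀ y : Fin (N + 1) → ℂ, OnB t G y →
    ∃ i ∈ I, Sum.elim (fun i => eval₂ (evalAt K t) y (A i) * eval₂ (evalAt K t) y (B i)) y i ≠ 0

/-- The orders of the zeros of the `c i` at the elements of the `D l` are positive and
independent. -/
def IndependentOrders {K : Subfield ℂ} {n M : ℕ} (T : ℕ) (c : Fin n → Polynomial K)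
    (D : Fin M → Finset ℂ) : Prop :=
  (∀ l, ∀ α ∈ D l, ∀ i, 0 < order (c i) α) ∧
  ∀ l l', l ≠ l' → ∀ α ∈ D l, ∀ α' ∈ D l', ∀ i j : Fin n, i ≠ j → ∀ q, 0 < q → q ≤ T ^ 8 →
    ¬ IsSquare (q * (order (c i) α * order (c j) α * (order (c i) α' * order (c j) α')))

/-- `z` is a unit of the ring generated by `S`. -/
def IsUnitOf (S : Set ℂ) (z : ℂ) : Prop :=
  z ≠ 0 ∧ z ∈ Subring.closure S ∧ z⁻¹ ∈ Subring.closure S

/-- The generators `F`, `t` and `1 / (t - b)`, `b ∈ P`, of the ring `R_t`. -/
def generators (F P : Finset ℂ) (t : ℂ) : Set ℂ :=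
  insert t ((F : Set ℂ) ∪ (fun b => (t - b)⁻¹) '' (P : Set ℂ))

/-- For some vector `w` of units of `R_t` the variation on `S_{t,w}` has an atypical special
subvariety which is not contained in the singular locus. -/
def SomeAtypical {K : Subfield ℂ} (Γ F P : Finset ℂ) {N n : ℕ} (m : ℕ) {κ : Type}
    (G : κ → MvPolynomial (Fin (N + 1)) (Polynomial K))
    (A B : Fin n → MvPolynomial (Fin (N + 1)) (Polynomial K))
    (g : Fin n → ℍ → ℂ) (c : Fin n → Polynomial K) (t : ℂ) : Prop :=
  ∃ w : Fin n → ℂ, (∀ i, IsUnitOf (generators F P t) (w i)) ∧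
    ¬ NoAtypical Γ (total t G A B g c w) m

/-- The map `(y, z) ↦ (y / y_a, z)`. -/
theorem scale_mem {K : Subfield ℂ} {t : ℂ} {N n : ℕ} {κ : Type}
    {G : κ → MvPolynomial (Fin (N + 1)) (Polynomial K)} (hG : ∀ l, ∃ e, (G l).IsHomogeneous e)
    {A B : Fin n → MvPolynomial (Fin (N + 1)) (Polynomial K)} {δ : Fin n → ℕ}
    (hA : ∀ i, (A i).IsHomogeneous (δ i)) (hB : ∀ i, (B i).IsHomogeneous (δ i))
    {g : Fin n → ℍ → ℂ} {c : Fin n → Polynomial K} {w : Fin n → ℂ}
    {y : Fin (N + 1) → ℂ} {z : Fin n → ℍ}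
    (h : (y, z) ∈ total t G A B g c w) {a : ℂ} (ha : a ≠ 0) :
    (a • y, z) ∈ total t G A B g c w := by
  have hsm : ∀ (P : MvPolynomial (Fin (N + 1)) (Polynomial K)) (f : ℕ), P.IsHomogeneous f →
      eval₂ (evalAt K t) (a • y) P = a ^ f * eval₂ (evalAt K t) y P := by
    intro P f hP
    have h1 := Pool.Agent.W466.ZC.eval_smul (hP.map (evalAt K t)) a y
    rwa [eval_map, eval_map] at h1
  obtain ⟨⟨h1, h2⟩, h4⟩ := h
  refine ⟨⟨smul_ne_zero ha h1, fun l => ?_⟩, fun i => ?_⟩
  · obtain ⟨e, he⟩ := hG l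
    change eval₂ (evalAt K t) (a • y) (G l) = 0
    rw [hsm _ _ he, h2 l, mul_zero]
  · change _ * eval₂ (evalAt K t) (a • y) (B i) * _ = eval₂ (evalAt K t) (a • y) (A i)
    rw [hsm _ _ (hA _), hsm _ _ (hB _), ← h4 i]
    ring

/-- Variations of Hodge structures over one-parameter families of bases and maps to modular
curves, which degenerate at sufficiently many algebraic values of the parameter, scaled by
arbitrary units: only for finitely many parameters in a finitely generated field, in a finitely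
generated ring, in its group of units, of bounded degree, in the division group of the rational
numbers, or in the group of roots of unity, there is a scaling with an atypical special
subvariety outside of the singular locus. -/
theorem result (K : Subfield ℂ) [Countable K] (κ : Type) [Finite κ] (N n m M T : ℕ)
    (G : κ → MvPolynomial (Fin (N + 1)) (Polynomial K)) (hG : ∀ l, ∃ e, (G l).IsHomogeneous e)
    (A B : Fin n → MvPolynomial (Fin (N + 1)) (Polynomial K)) (δ : Fin n → ℕ)
    (hA : ∀ i, (A i).IsHomogeneous (δ i)) (hB : ∀ i, (B i).IsHomogeneous (δ i))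
    (R : Fin n → Polynomial (Polynomial K)) (hR : ∀ i, (R i).Monic)
    (hT : ∀ i u w, ((R i).coeff u).coeff w ≠ 0 → u ≤ T ∧ w ≤ T)
    (g : Fin n → ℍ → ℂ) (hg : ∀ i z, valueAt (R i) (g i z) (jj z) = 0)
    (c : Fin n → Polynomial K) (hc : ∀ i, c i ≠ 0) (D : Fin M → Finset ℂ)
    (hD : ∀ l, ∀ α ∈ D l, IsAlgebraic K α) (hind : IndependentOrders T c D)
    (hpos : ∀ l, ∀ α ∈ D l, InGeneralPosition α m G A B)
    (Γ : Finset ℂ) (hΓ : ∀ γ ∈ Γ, IsAlgebraic K γ) (F : Finset ℂ)
    (hF : ∀ z ∈ F, IsAlgebraic K z) (P : Finset ℂ) (hP : ∀ z ∈ P, IsAlgebraic K z)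
    (hPD : ∀ l, ∀ α ∈ D l, α ∉ P) :
    ((∀ I : Finset (Fin M), M ≤ I.card + n.choose 2 → 3 ≤ (I.biUnion D).card) →
      {t : ℂ | t ∈ Subfield.closure (F : Set ℂ) ∧ SomeAtypical Γ F P m G A B g c t}.Finite) ∧
    ((∀ I : Finset (Fin M), M ≤ I.card + n.choose 2 → 2 ≤ (I.biUnion D).card) →
      {t : ℂ | t ∈ Subring.closure (F : Set ℂ) ∧ SomeAtypical Γ F P m G A B g c t}.Finite) ∧
    ((∀ I : Finset (Fin M), M ≤ I.card + n.choose 2 → ∃ α ∈ I.biUnion D, α ≠ 0) →
      {t : ℂ | IsUnitOf (F : Set ℂ) t ∧ SomeAtypical Γ F P m G A B g c t}.Finite) ∧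
    ∀ α : Fin M → ℚ, (∀ l, ((α l : ℚ) : ℂ) ∈ D l) →
      (Function.Injective α → ∀ d : ℕ, n.choose 2 + 1 + 2 * d ≤ M →
        {t : ℂ | (∃ Q : Polynomial ℤ, Q ≠ 0 ∧ Q.natDegree ≤ d ∧ Polynomial.aeval t Q = 0) ∧
          SomeAtypical Γ F P m G A B g c t}.Finite) ∧
      ((∀ l, α l ≠ 0) → (∀ l l', l ≠ l' → |α l| ≠ |α l'|) → n.choose 2 + 1 + 2 ≤ M →
        {t : ℂ | (∃ a : ℕ, 0 < a ∧ ∃ q : ℚ, t ^ a = (q : ℂ)) ∧
          SomeAtypical Γ F P m G A B g c t}.Finite) ∧
      ((∀ l, α l ≠ 0 ∧ |α l| ≠ 1) → n.choose 2 + 1 ≤ M →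
        {t : ℂ | (∃ a : ℕ, 0 < a ∧ t ^ a = 1) ∧ SomeAtypical Γ F P m G A B g c t}.Finite) := by
  classical
  obtain ⟨W, hFW, hcrit⟩ := Pool.Agent.Q57.ZP.tot_crit_pure K κ N n m M T G hG A B δ hA hB R hR hT c
    hc D hD hind hpos Γ hΓ F hF P hP hPD
  have hE₀ : ∀ t, IsAlgebraic K t → t ∉ Finset.univ.biUnion D →
      (∃ f : Fin (n.choose 2 + 1) → Fin M,
      Function.Injective f ∧ ∀ l, ∃ a ∈ D (f l), ¬ Pool.Agent.Y910.Z.Bad (W : Set ℂ) t a) →
      ¬ SomeAtypical Γ F P m G A B g c t := by
    rintro t ht htD hf ⟨w, hw, hno⟩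
    have hkey : ∀ (y : Fin (N + 1) → ℂ) (z : Fin n → ℍ) (j0 : Fin (N + 1)) (ρ : ℕ), y j0 = 1 →
        (y, z) ∈ total t G A B g c w → InSpecial Γ (fun i => jj (z i)) ρ →
        ∀ (S : Finset (Fin n)) (T1 : Finset (Fin (N + 1))),
        AlgebraicIndependent K (Sum.elim (fun i : S => jj (z i)) (fun a : T1 => y a)) →
        S.card + T1.card + ρ ≤ m := by
      rintro y z j0 ρ hj0 ⟨hy, h1⟩ ⟨r, Z, hρ, hxZ⟩ S T1 hST
      have h3 := hcrit t ht htD w (fun i =>
        Pool.Agent.Q57.ZP.UnitOf.mono (Pool.Agent.Q57.ZP.gens_mono hFW t) (hw i)) hf r Z y j0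
        hj0 hy (fun i => jj (z i)) (fun i => g i (z i)) (fun i => ⟨hg i _, h1 i⟩) hxZ S T1 hST
      omega
    apply hno
    intro ρ
    constructor
    · intro s σ W' p hW' hcl hprime hp
      refine Pool.Agent.Q57.ZP.dim_of_trdeg K
        (Q := (Fin (N + 1) → ℂ) × (Fin n → ℍ)) (m := m) (ρ := ρ)
        (fun q i => jj (q.2 i))
        (fun q => q ∈ total t G A B g c w ∧ InSpecial Γ (fun i => jj (q.2 i)) ρ)
        ?_ σ W' p ?_ hcl hprime hp
      · rintro ⟨y, z⟩ ⟨hyX, hS⟩ S hSi
        obtain ⟨j0, hj0⟩ : ∃ j0, y j0 ≠ 0 := by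
          by_contra hcon
          push Not at hcon
          exact hyX.1.1 (funext hcon)
        have h2 : AlgebraicIndependent K (Sum.elim (fun i : S => jj (z i))
            (fun a : (∅ : Finset (Fin (N + 1))) => ((y j0)⁻¹ • y) a)) :=
          Pool.Agent.Q57.ZP.empty_ind (K := K) ((y j0)⁻¹ • y) (fun i => jj (z i)) S hSi
        have h3 := hkey ((y j0)⁻¹ • y) z j0 ρ (by
          rw [Pi.smul_apply, smul_eq_mul, inv_mul_cancel₀ hj0]) (scale_mem hG hA hB hyX
          (inv_ne_zero hj0)) hS S ∅ h2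
        rw [Finset.card_empty, add_zero] at h3
        exact h3
      · intro v hv hpv
        obtain ⟨q, hq1, hq2, hq3⟩ := hW' v hv hpv
        exact ⟨q, ⟨hq1, hq2⟩, hq3⟩
    · intro j₀ s σ W' p hW' hcl hprime hp
      refine Pool.Agent.Q57.ZP.dim_of_trdeg K
        (Q := (Fin (N + 1) → ℂ) × (Fin n → ℍ)) (m := m) (ρ := ρ)
        (fun q => Sum.elim q.1 (fun i => jj (q.2 i)))
        (fun q => q ∈ total t G A B g c w ∧ q.1 j₀ = 1 ∧ InSpecial Γ (fun i => jj (q.2 i)) ρ)
        ?_ σ W' p ?_ hcl hprime hp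
      · rintro ⟨y, z⟩ ⟨hyX, hj, hS⟩ S hSi
        have h2 : AlgebraicIndependent K (Sum.elim (fun i : S.toRight => jj (z i))
            (fun a : S.toLeft => y a)) :=
          Pool.Agent.Q57.ZP.split_ind (K := K) y (fun i => jj (z i)) S hSi
        have h3 := hkey y z j₀ ρ hj hyX hS S.toRight S.toLeft h2
        have h4 := S.card_toLeft_add_card_toRight
        omega
      · intro v hv hpv
        obtain ⟨q, hq1, hq2, hq3, hq4⟩ := hW' v hv hpv
        exact ⟨q, ⟨hq1, hq2, hq3⟩, hq4⟩
  have hE : ∀ t, t ∉ {t : ℂ | ¬ IsAlgebraic K t} ∪ ((Finset.univ.biUnion D : Finset ℂ) : Set ℂ) →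
      (∃ f : Fin (n.choose 2 + 1) → Fin M,
      Function.Injective f ∧ ∀ l, ∃ a ∈ D (f l), ¬ Pool.Agent.Y910.Z.Bad (W : Set ℂ) t a) →
      t ∉ {t | SomeAtypical Γ F P m G A B g c t} := by
    intro t ht hf h
    rw [Set.mem_union, not_or] at ht
    exact hE₀ t (not_not.1 ht.1) (fun h => ht.2 (Finset.mem_coe.2 h)) hf h
  have hfin : ∀ Q : ℂ → Prop, {t : ℂ | Q t ∧ t ∈ {t : ℂ | ¬ IsAlgebraic K t}}.Finite →
      {t : ℂ | Q t ∧ t ∈ {t : ℂ | ¬ IsAlgebraic K t} ∪
        ((Finset.univ.biUnion D : Finset ℂ) : Set ℂ)}.Finite := by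
    intro Q h
    refine (h.union (Finset.univ.biUnion D).finite_toSet).subset ?_
    rintro t ⟨h1, h2 | h2⟩
    · exact Or.inl ⟨h1, h2⟩
    · exact Or.inr h2
  refine ⟨fun h => ?_, fun h => ?_, fun h => ?_, fun α hα => ?_⟩
  · exact Pool.Agent.Q57.ZP.finite_of_bad' (n.choose 2 + 1) W D _
      (fun I hI => Pool.Agent.Q57.ZP.fin_bad_field W F D I (h I (by omega))) _ _
      (hfin _ (Pool.Agent.Q57.ZP.alg_field hF)) hE
  · exact Pool.Agent.Q57.ZP.finite_of_bad' (n.choose 2 + 1) W D _
      (fun I hI => Pool.Agent.Q57.ZP.fin_bad_ring W F D I (h I (by omega))) _ _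
      (hfin _ (Pool.Agent.Q57.ZP.alg_ring hF)) hE
  · exact Pool.Agent.Q57.ZP.finite_of_bad' (n.choose 2 + 1) W D _
      (fun I hI => Pool.Agent.Q57.ZP.fin_bad_unit W F hFW D I (h I (by omega))) _ _
      (hfin _ (Pool.Agent.Q57.ZP.alg_unit hF)) hE
  · refine Pool.Agent.Q57.ZP.fin_par (L := n.choose 2 + 1) W D α hα
      {t | SomeAtypical Γ F P m G A B g c t} ?_
    intro t htD htZ hf
    have htK : IsAlgebraic K t := htZ.extendScalars (algebraMap ℤ K).injective_int
    exact hE₀ t htK (fun h => htD (Finset.mem_coe.2 h)) hf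

end Pool.Agent.Results.MP_0704bf_ag.TwistedFamilies
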