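import Pool.Agent.Q57.ZP.HodF

/-!
# MP_0704bf_ag: Zilber-Pink for variations of Hodge structure given by families of elliptic curves
with level structures, for all but finitely many members of families of bases and maps to modular
curves over an elliptic curve, scaled by arbitrary units

**The parameters.** Let `a, b` be algebraic numbers with `4 a³ + 27 b² ≠ 0` and let `Curve a b` be the
set of the affine points `P = (x, y)` of the elliptic curve `y² = x³ + a x + b`. The order `e` of a
function `c ∈ ℂ[x, y]` at a point `Q` of it is defined by `c = loc^e g / h` with a local parameter `loc`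
and functions `g, h` which do not vanish at `Q` with coefficients algebraic over a given countable
field `K ⊂ ℂ` (`HasOrder`).

**The variations.** Let
* `B_t ⊆ P^N` be a family of projective algebraic sets, defined by forms `G l` with coefficients in
  `K[t]`, `f_i = A_i / B_i`, `i = 1, …, n`, quotients of forms of the same degree `δ_i` with
  coefficients in `K[t]`, and `t = φ(P) = u(P) / v(P)` a rational function on the elliptic curve,
* `g_i` functions on the upper half plane which are integral over `K[jj]`, `jj = j = E₄³ / Δ` the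
  elliptic modular function: `R_i (g_i (z), jj (z)) = 0` with polynomials `R_i` monic in the first
  variable. For example `g_i = jj`, or a Hauptmodul with its pole at a cusp of a modular curve
  `X_i = Γ_i \ ℍ` of genus `0` of any level (`λ`, …); nothing else is used about `g_i`,
* `c_i ∈ ℂ[x, y]` functions on the elliptic curve, and `w_i` nonzero numbers.

Let `X_{P,w}` (`total`) be the set of all points `(y, z)` of `B_t × ℍ^n`, `t = φ(P)`, such that
`w_i c_i (P) g_i (z_i) = f_i (y)` for all `i` (with the denominators cleared). If the `g_i` are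
Hauptmoduln, then its image `S_{P,w}` in `B_t × X_1 × … × X_n` is an open part of `B_t`, with the maps
`f_i / (w_i c_i (P))` to the modular curves `X_i`. It carries the polarizable variation of Hodge
structures `𝕍 = ⊕ 𝕍_i`, where `𝕍_i` is the pull-back of a variation on `X_i` with period domain `ℍ`
(`R¹π_* ℤ` of a family of elliptic curves with level structure, `R²π_* ℤ` of a family of K3 surfaces
of Picard number `19`, and so on). The period map `Φ` of `𝕍` is (up to finite maps) the map to
`Y(1)^n = ℂ^n` given by `jj z_1, …, jj z_n`, and the Hodge subvarieties of the period space are the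
special subvarieties of `Y(1)^n`.

**Multipliers.** Let `F` be a finite set of numbers algebraic over `K`, `H` a finite set of functions in
`ℂ[x, y]` with coefficients algebraic over `K`, and let `R_P` be the ring generated by `F`, the
coordinates of `P` and the numbers `h(P)⁻¹`, `h ∈ H` (`generators`). The multipliers `w_i` are arbitrary
units of the integral closure of `R_P` in `ℂ`, independent of each other: for instance arbitrary
units of the ring of all algebraic integers, arbitrary roots of `S`-units, and products of arbitrary,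
also fractional, powers, positive or negative, of the values `h(P)`, `h ∈ H`. We also allow special
subvarieties with arbitrary constant coordinates integral over `R_P` (`InSpecial`).

**Degenerate members.** Let `Q_1, …, Q_M`, `M ≥ n (n - 1) / 2 + 1`, be points of the elliptic curve with
algebraic coordinates, `v(Q_l) ≠ 0`, `h(Q_l) ≠ 0` for `h ∈ H`, such that
* no point of `B_t`, `t = φ(Q_l)`, lies on `m + 1` of the divisors of the `f_i` and the coordinate
  hyperplanes (`InGeneralPosition`), and
* the `c_i` have zeros at `Q_l`, of orders `e_li > 0`, and `q e_li e_lj e_l'i e_l'j` is not a square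
  for `l ≠ l'`, `i ≠ j`, `1 ≤ q ≤ T^8`, where `T` bounds the degrees of the `R_i`
  (`IndependentOrders`).

**Theorem.** For every number field `E`, for all but finitely many of the points `P` of the elliptic
curve over `E` and for ALL multipliers `w`: for every `ρ` every irreducible closed subset `W` of the
intersection of `Φ (S_{P,w})` with the union of all special subvarieties `Z` of codimension at least
`ρ` has dimension at most `m - ρ`, and the same bound holds for the irreducible closed subsets `W` of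
`Φ⁻¹ (Z)`. For `ρ = 0` it follows that `S_{P,w}` has dimension at most `m`. It follows that
`codim Φ (W) ≥ codim Φ (S) + codim Z` for all special subvarieties `W` for `𝕍` of all components `S`
of `S_{P,w}` of dimension `m` (`W` a component of `Φ⁻¹ (Z)`): the fibres of `Φ` on `W` have at least
the dimension `f` of the general fibres of `Φ` on `S`, so
`dim Φ (W) ≤ dim S - ρ - f = dim Φ (S) - ρ`. So there is no atypical special subvariety, except
possibly those contained in the singular locus of `S` for `𝕍`, a proper closed subset, in which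
every special subvariety is atypical by definition.

The finite exceptional set of the `P` does not depend on `w`. Our result `TwistedFamilies` of this problem
is over the projective line, needs two or more further degenerate members for the parameters in one
number field, and has multipliers in a finitely generated group.
-/

set_option autoImplicit false

namespace Pool.Agent.Results.MP_0704bf_ag.TwistsOverEllipticCurves

open MvPolynomial H294ZP UpperHalfPlane Pool.Agent.W282.ZP
open Pool.Agent.Y199.SG.ZPZ (Curve value HasOrder IndependentOrders)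
open Pool.Agent.Results.MP_a325a5_ag.FinitelyGeneratedFields (SpecialVariety evalAt OnB valueAt)

/-- The total space: the points `(y, z)` of `B_t × ℍ^n` such that
`lam_i B_i (y) g_i (z_i) = A_i (y)`. -/
def total {K : Subfield ℂ} (t : ℂ) {N n : ℕ} {κ : Type} (lam : Fin n → ℂ)
    (G : κ → MvPolynomial (Fin (N + 1)) (Polynomial K))
    (A B : Fin n → MvPolynomial (Fin (N + 1)) (Polynomial K))
    (g : Fin n → ℍ → ℂ) : Set ((Fin (N + 1) → ℂ) × (Fin n → ℍ)) :=
  {p | OnB t G p.1 ∧ ∀ i, lam i * eval₂ (evalAt K t) p.1 (B i) * g i (p.2 i) =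
        eval₂ (evalAt K t) p.1 (A i)}

/-- The point `x` of `Y(1)^n` is in a special subvariety of codimension at least `ρ`; the constant
coordinates are special points or integral over the ring generated by `U`. -/
def InSpecial (U : Set ℂ) {n : ℕ} (x : Fin n → ℂ) (ρ : ℕ) : Prop :=
  ∃ (r : ℕ) (Z : SpecialVariety (algebraMap (Algebra.adjoin ℤ U) ℂ) n r),
    ρ + r ≤ n ∧ x ∈ Z.locus

/-- For all `ρ` every irreducible closed subset `W` of the intersection of the image of `X` in
`Y(1)^n` with the union of the special subvarieties of codimension at least `ρ` satisfies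
`dim W + ρ ≤ m`, and the same holds for the irreducible closed subsets of the set of all points
`(y, x)` of `B × Y(1)^n` with `x = (jj z_1, …, jj z_n)`, `(y, z) ∈ X`, such that `x` is in this union.

Here `W` is more precisely an irreducible closed set of vectors, such that all vectors in `W`
outside of some hypersurface `p = 0`, which does not contain `W`, are the vectors of coordinates
(numbered in any way) of such points `x`, respectively `(y, x)` over the affine part `y_{j₀} = 1` of
`P^N`. -/
def NoAtypical (U : Set ℂ) {N n : ℕ} (X : Set ((Fin (N + 1) → ℂ) × (Fin n → ℍ))) (m : ℕ) :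
    Prop :=
  ∀ ρ : ℕ,
    (∀ (s : ℕ) (σ : Fin s ≃ Fin n) (W : Set (Fin s → ℂ)) (p : MvPolynomial (Fin s) ℂ),
      (∀ w ∈ W, eval w p ≠ 0 → ∃ z ∈ X, InSpecial U (fun i => jj (z.2 i)) ρ ∧
        ∀ i, w i = jj (z.2 (σ i))) →
      zcl W ⊆ W → (idealOf W).IsPrime → p ∉ idealOf W →
      zdim W + (ρ : Cardinal) ≤ (m : Cardinal)) ∧
    ∀ (j₀ : Fin (N + 1)) (s : ℕ) (σ : Fin s ≃ Fin (N + 1) ⊕ Fin n) (W : Set (Fin s → ℂ))
      (p : MvPolynomial (Fin s) ℂ),
      (∀ w ∈ W, eval w p ≠ 0 →
        ∃ z ∈ X, z.1 j₀ = 1 ∧ InSpecial U (fun i => jj (z.2 i)) ρ ∧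
          ∀ i, w i = (Sum.elim z.1 (fun i => jj (z.2 i)) : Fin (N + 1) ⊕ Fin n → ℂ) (σ i)) →
      zcl W ⊆ W → (idealOf W).IsPrime → p ∉ idealOf W →
      zdim W + (ρ : Cardinal) ≤ (m : Cardinal)

/-- No point of `B_t` lies on `m + 1` of the divisors of the `A i / B i` and of the coordinate
hyperplanes. -/
def InGeneralPosition {K : Subfield ℂ} (t : ℂ) {N n : ℕ} {κ : Type} (m : ℕ)
    (G : κ → MvPolynomial (Fin (N + 1)) (Polynomial K))
    (A B : Fin n → MvPolynomial (Fin (N + 1)) (Polynomial K)) : Prop :=
  ∀ I : Finset (Fin n ⊕ Fin (N + 1)), I.card = m + 1 → ∀ y : Fin (N + 1) → ℂ, OnB t G y →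
    ∃ i ∈ I, Sum.elim (fun i => eval₂ (evalAt K t) y (A i) * eval₂ (evalAt K t) y (B i)) y i ≠ 0

/-- `z` is a unit of the integral closure in `ℂ` of the ring generated by `S`. -/
def IsUnitOver (S : Set ℂ) (z : ℂ) : Prop :=
  z ≠ 0 ∧ IsIntegral (Algebra.adjoin ℤ S) z ∧ IsIntegral (Algebra.adjoin ℤ S) z⁻¹

/-- The generators of the ring `R_P`: the coordinates of `P`, the elements of `F` and the inverses of
the values at `P` of the functions in `H`. -/
def generators (F : Finset ℂ) (H : Finset (MvPolynomial (Fin 2) ℂ)) (P : Fin 2 → ℂ) : Set ℂ :=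
  Set.range P ∪ ((F : Set ℂ) ∪ (fun h => (eval P h)⁻¹) '' (H : Set _))

/-- The map `(y, z) ↦ (y / y_a, z)`. -/
theorem scale_mem {K : Subfield ℂ} {t : ℂ} {N n : ℕ} {κ : Type} {lam : Fin n → ℂ}
    {G : κ → MvPolynomial (Fin (N + 1)) (Polynomial K)} (hG : ∀ l, ∃ e, (G l).IsHomogeneous e)
    {A B : Fin n → MvPolynomial (Fin (N + 1)) (Polynomial K)} {δ : Fin n → ℕ}
    (hA : ∀ i, (A i).IsHomogeneous (δ i)) (hB : ∀ i, (B i).IsHomogeneous (δ i))
    {g : Fin n → ℍ → ℂ} {y : Fin (N + 1) → ℂ} {z : Fin n → ℍ}
    (h : (y, z) ∈ total t lam G A B g) {a : ℂ} (ha : a ≠ 0) :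
    (a • y, z) ∈ total t lam G A B g := by
  have hsm : ∀ (P : MvPolynomial (Fin (N + 1)) (Polynomial K)) (f : ℕ), P.IsHomogeneous f →
      eval₂ (evalAt K t) (a • y) P = a ^ f * eval₂ (evalAt K t) y P := by
    intro P f hP
    have h1 := Pool.Agent.W466.ZC.eval_smul (hP.map (evalAt K t)) a y
    rwa [eval_map, eval_map] at h1
  obtain ⟨⟨h1, h2⟩, h4⟩ := h
  refine ⟨⟨smul_ne_zero ha h1, fun l => ?_⟩, fun i => ?_⟩
  · obtain ⟨e, he⟩ := hG l
    change eval₂ (evalAt K t) (a • y) (G l) = 0
    rw [hsm _ _ he, h2 l, mul_zero]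
  · change _ * eval₂ (evalAt K t) (a • y) (B i) * _ = eval₂ (evalAt K t) (a • y) (A i)
    rw [hsm _ _ (hA _), hsm _ _ (hB _), ← h4 i]
    ring

/-- Variations of Hodge structures over families of bases and maps to modular curves over an elliptic
curve, scaled by arbitrary units: only for finitely many points `P` over a number field there are
units `w` of the integral closure of `R_P` such that the variation on `S_{P,w}` has an atypical
special subvariety outside of the singular locus. -/
theorem result (K : Subfield ℂ) [Countable K] (κ : Type) [Finite κ] (N n m M T : ℕ)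
    (G : κ → MvPolynomial (Fin (N + 1)) (Polynomial K)) (hG : ∀ l, ∃ e, (G l).IsHomogeneous e)
    (A B : Fin n → MvPolynomial (Fin (N + 1)) (Polynomial K)) (δ : Fin n → ℕ)
    (hA : ∀ i, (A i).IsHomogeneous (δ i)) (hB : ∀ i, (B i).IsHomogeneous (δ i))
    (R : Fin n → Polynomial (Polynomial K)) (hR : ∀ i, (R i).Monic)
    (hT : ∀ i u w, ((R i).coeff u).coeff w ≠ 0 → u ≤ T ∧ w ≤ T)
    (g : Fin n → ℍ → ℂ) (hg : ∀ i z, valueAt (R i) (g i z) (jj z) = 0)
    (a b : ℂ) (ha : IsAlgebraic ℚ a) (hb : IsAlgebraic ℚ b) (hab : 4 * a ^ 3 + 27 * b ^ 2 ≠ 0)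
    (u v : MvPolynomial (Fin 2) ℂ) (hu : ∀ d, IsAlgebraic K (u.coeff d))
    (hv : ∀ d, IsAlgebraic K (v.coeff d))
    (Q : Fin M → Fin 2 → ℂ) (hQ : ∀ l, Q l ∈ Curve a b) (hQa : ∀ l i, IsAlgebraic ℚ (Q l i))
    (hvQ : ∀ l, eval (Q l) v ≠ 0) (hM : n * (n - 1) / 2 + 1 ≤ M)
    (c : Fin n → MvPolynomial (Fin 2) ℂ) (e : Fin M → Fin n → ℕ)
    (he : ∀ l i, HasOrder K a b (Q l) (c i) (e l i)) (hind : IndependentOrders T e)
    (hpos : ∀ l, InGeneralPosition (value u v (Q l)) m G A B)
    (F : Finset ℂ) (hF : ∀ z ∈ F, IsAlgebraic K z) (H : Finset (MvPolynomial (Fin 2) ℂ))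
    (hHa : ∀ h ∈ H, ∀ d, IsAlgebraic K (h.coeff d)) (hHQ : ∀ l, ∀ h ∈ H, eval (Q l) h ≠ 0)
    (E : IntermediateField ℚ ℂ) [FiniteDimensional ℚ E] :
    {P : Fin 2 → ℂ | P ∈ Curve a b ∧ (∀ i, P i ∈ E) ∧
      ∃ w : Fin n → ℂ, (∀ i, IsUnitOver (generators F H P) (w i)) ∧
        ¬ NoAtypical (generators F H P)
          (total (value u v P) (fun i => w i * eval P (c i)) G A B g) m}.Finite := by
  classical
  have hM' : n.choose 2 + 1 ≤ M := by
    rw [Nat.choose_two_right]
    exact hM
  let ι : Fin (n.choose 2 + 1) → Fin M := Fin.castLE hM'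
  have hι : Function.Injective ι := Fin.castLE_injective hM'
  obtain ⟨W, hcrit⟩ := Pool.Agent.Q57.ZP.tot_crit_ell_pure K κ N n m T G hG A B δ hA hB R hR hT a b
    u v hu hv (fun l => Q (ι l)) (fun l i => (hQa _ i).isIntegral.tower_top.isAlgebraic)
    (fun l => hvQ _) c (fun l => e (ι l)) (fun l => he _) (fun l => hind.1 _)
    (fun l l' hll i j hij q hq hqT => hind.2 _ _ (fun h => hll (hι h)) i j hij q hq hqT)
    (fun l => hpos _) F hF H hHa (fun l => hHQ _)
  have hbad := (Pool.Agent.Y199.SG.ZPZ.near_all a b ha hb hab (fun l => Q (ι l)) (fun l => hQ _)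
    (fun l => hQa _) W E).union
    (Set.finite_iUnion fun l => Pool.Agent.Q57.ZP.loc_finite a b (Q (ι l)))
  refine hbad.subset ?_
  rintro P ⟨hP, hPE, w, hw, hno⟩
  by_contra hcon
  rw [Set.mem_union, not_or, Set.mem_iUnion, not_exists] at hcon
  obtain ⟨hcon1, hcon2⟩ := hcon
  have hnear : ∀ l, ∃ V : ValuationSubring ℂ, (∀ z ∈ W, z ∈ V) ∧
      ∀ i, V.valuation (P i - Q (ι l) i) < 1 := by
    by_contra h2
    exact hcon1 ⟨hP, hPE, h2⟩
  have hloc : ∀ l, Pool.Agent.Y199.SG.ZPZ.loc (Q (ι l)) P ≠ 0 := fun l h => hcon2 l ⟨hP, h⟩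
  have hPa : ∀ i, IsAlgebraic K (P i) := fun i =>
    Pool.Agent.Y199.SG.ZPZ.alg_of_mem K E _ (hPE i)
  have hkey : ∀ (y : Fin (N + 1) → ℂ) (z : Fin n → ℍ) (j0 : Fin (N + 1)) (ρ : ℕ), y j0 = 1 →
      (y, z) ∈ total (value u v P) (fun i => w i * eval P (c i)) G A B g →
      InSpecial (generators F H P) (fun i => jj (z i)) ρ →
      ∀ (S : Finset (Fin n)) (T1 : Finset (Fin (N + 1))),
      AlgebraicIndependent K (Sum.elim (fun i : S => jj (z i)) (fun a : T1 => y a)) →
      S.card + T1.card + ρ ≤ m := by
    rintro y z j0 ρ hj0 ⟨hy, h1⟩ ⟨r, Z, hρ, hxZ⟩ S T1 hST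
    have h3 := hcrit P hP hPa hloc hnear w (fun i => hw i) r Z y j0
      hj0 hy (fun i => jj (z i)) (fun i => g i (z i)) (fun i => ⟨hg i _, h1 i⟩) hxZ S T1 hST
    omega
  apply hno
  intro ρ
  constructor
  · intro s σ W' p hW' hcl hprime hp
    refine Pool.Agent.Q57.ZP.dim_of_trdeg K
      (Q := (Fin (N + 1) → ℂ) × (Fin n → ℍ)) (m := m) (ρ := ρ)
      (fun q i => jj (q.2 i))
      (fun q => q ∈ total (value u v P) (fun i => w i * eval P (c i)) G A B g ∧
        InSpecial (generators F H P) (fun i => jj (q.2 i)) ρ)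
      ?_ σ W' p ?_ hcl hprime hp
    · rintro ⟨y, z⟩ ⟨hyX, hS⟩ S hSi
      obtain ⟨j0, hj0⟩ : ∃ j0, y j0 ≠ 0 := by
        by_contra hcon
        push Not at hcon
        exact hyX.1.1 (funext hcon)
      have h2 : AlgebraicIndependent K (Sum.elim (fun i : S => jj (z i))
          (fun a : (∅ : Finset (Fin (N + 1))) => ((y j0)⁻¹ • y) a)) :=
        Pool.Agent.Q57.ZP.empty_ind (K := K) ((y j0)⁻¹ • y) (fun i => jj (z i)) S hSi
      have h3 := hkey ((y j0)⁻¹ • y) z j0 ρ (by
        rw [Pi.smul_apply, smul_eq_mul, inv_mul_cancel₀ hj0]) (scale_mem hG hA hB hyX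
        (inv_ne_zero hj0)) hS S ∅ h2
      rw [Finset.card_empty, add_zero] at h3
      exact h3
    · intro v hv hpv
      obtain ⟨q, hq1, hq2, hq3⟩ := hW' v hv hpv
      exact ⟨q, ⟨hq1, hq2⟩, hq3⟩
  · intro j₀ s σ W' p hW' hcl hprime hp
    refine Pool.Agent.Q57.ZP.dim_of_trdeg K
      (Q := (Fin (N + 1) → ℂ) × (Fin n → ℍ)) (m := m) (ρ := ρ)
      (fun q => Sum.elim q.1 (fun i => jj (q.2 i)))
      (fun q => q ∈ total (value u v P) (fun i => w i * eval P (c i)) G A B g ∧ q.1 j₀ = 1 ∧
        InSpecial (generators F H P) (fun i => jj (q.2 i)) ρ)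
      ?_ σ W' p ?_ hcl hprime hp
    · rintro ⟨y, z⟩ ⟨hyX, hj, hS⟩ S hSi
      have h2 : AlgebraicIndependent K (Sum.elim (fun i : S.toRight => jj (z i))
          (fun a : S.toLeft => y a)) :=
        Pool.Agent.Q57.ZP.split_ind (K := K) y (fun i => jj (z i)) S hSi
      have h3 := hkey y z j₀ ρ hj hyX hS S.toRight S.toLeft h2
      have h4 := S.card_toLeft_add_card_toRight
      omega
    · intro v hv hpv
      obtain ⟨q, hq1, hq2, hq3, hq4⟩ := hW' v hv hpv
      exact ⟨q, ⟨hq1, hq2, hq3⟩, hq4⟩

end Pool.Agent.Results.MP_0704bf_ag.TwistsOverEllipticCurves
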